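import Pool.Agent.Q322.OS.LemA

set_option autoImplicit false

/-!
# The two embeddings, stability of the factors, the asymptotic representation
-/

namespace Pool.Agent.Q322.OS

open Filter Topology
open scoped Matrix.Norms.L2Operator

/-! ### Restriction and extension -/

/-- Restriction to the first `m` coordinates. -/
def res (m : ℕ) : R0 →ₙ+* (Fin m → ZMod 2) where
  toFun f i := f i
  map_mul' f g := by funext i; exact Finsupp.mul_apply
  map_zero' := rfl
  map_add' f g := rfl

/-- Extension by zero. -/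
noncomputable def ext0 (m : ℕ) : (Fin m → ZMod 2) →ₙ+* R0 where
  toFun x := Finsupp.onFinset (Finset.range m) (fun j => if h : j < m then x ⟨j, h⟩ else 0)
    (fun j hj => by
      by_contra h
      rw [Finset.mem_range] at h
      exact hj (dif_neg h))
  map_mul' x y := by
    ext j
    rw [Finsupp.mul_apply, Finsupp.onFinset_apply, Finsupp.onFinset_apply,
      Finsupp.onFinset_apply]
    by_cases h : j < m
    · simp [h]
    · simp [h]
  map_zero' := by
    ext j
    rw [Finsupp.onFinset_apply]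
    simp
  map_add' x y := by
    ext j
    rw [Finsupp.add_apply, Finsupp.onFinset_apply, Finsupp.onFinset_apply,
      Finsupp.onFinset_apply]
    by_cases h : j < m
    · simp [h]
    · simp [h]

theorem ext0_apply (m : ℕ) (x : Fin m → ZMod 2) (j : ℕ) :
    (ext0 m x) j = if h : j < m then x ⟨j, h⟩ else 0 := rfl

theorem ext0_res (f : R0) : ∀ᶠ m in atTop, ext0 m (res m f) = f := by
  filter_upwards [eventually_ge_atTop (f.support.sup id + 1)] with m hm
  ext j
  rw [ext0_apply]
  by_cases h : j < m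
  · rw [dif_pos h]; rfl
  · rw [dif_neg h]
    by_contra hj
    have h1 : j ∈ f.support := Finsupp.mem_support_iff.2 (Ne.symm hj)
    have h2 : j ≤ f.support.sup id := Finset.le_sup (f := id) h1
    omega

theorem stable_HG : OperatorNormStable (HG R0) := by
  refine stable_of_retracts (HG R0) (fun m => HG (Fin m → ZMod 2)) (fun m => HG.map (res m))
    (fun m => HG.map (ext0 m)) (fun g => ?_)
  filter_upwards [ext0_res g.a, ext0_res g.b, ext0_res g.c] with m h1 h2 h3
  exact HG.ext rfl h1 h2 h3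

/-! ### The sum of the coordinates -/

/-- The sum of the coordinates. -/
noncomputable def σ : R0 →+ ZMod 2 := Finsupp.liftAddHom fun _ => AddMonoidHom.id _

theorem σ_e (j : ℕ) : σ (e j) = 1 := by simp [σ]

/-- The sum of the coordinates. -/
def σm (m : ℕ) : (Fin m → ZMod 2) →+ ZMod 2 where
  toFun x := ∑ i, x i
  map_zero' := by simp
  map_add' x y := by simp [Finset.sum_add_distrib]

theorem σm_res (f : R0) : ∀ᶠ m in atTop, σm m (res m f) = σ f := by
  filter_upwards [eventually_ge_atTop (f.support.sup id + 1)] with m hm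
  show ∑ i : Fin m, f i = σ f
  rw [σ, Finsupp.liftAddHom_apply, ← Finset.sum_range (fun i => f i)]
  rw [Finsupp.sum_of_support_subset f (s := Finset.range m)]
  · rfl
  · intro j hj
    have h2 : j ≤ f.support.sup id := Finset.le_sup (f := id) hj
    rw [Finset.mem_range]
    omega
  · intro i _
    exact map_zero _

/-! ### The amalgamated subgroup -/

/-- The subgroup: `ℤ/2` times a direct sum of copies of `ℤ/2`. -/
abbrev H0 : Type := Multiplicative (ZMod 2 × R0)

/-- The first embedding. -/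
noncomputable def j1 : H0 →* HG R0 where
  toFun h := ⟨h.toAdd.1, 0, 0, h.toAdd.2⟩
  map_one' := rfl
  map_mul' g h := by ext <;> simp

/-- The second embedding. -/
noncomputable def j2 : H0 →* HG R0 where
  toFun h := ⟨h.toAdd.1 + σ h.toAdd.2, 0, 0, h.toAdd.2⟩
  map_one' := by ext <;> simp
  map_mul' g h := by
    apply HG.ext
    · simp only [toAdd_mul, Prod.fst_add, Prod.snd_add, map_add, HG.mul_t]
      abel
    · simp
    · simp
    · simp

theorem j1_inj : Function.Injective j1 := by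
  intro g h e
  have h1 : g.toAdd.1 = h.toAdd.1 := congrArg HG.t e
  have h2 : g.toAdd.2 = h.toAdd.2 := congrArg HG.c e
  exact Prod.ext h1 h2

theorem j2_inj : Function.Injective j2 := by
  intro g h e
  have h1 : g.toAdd.1 + σ g.toAdd.2 = h.toAdd.1 + σ h.toAdd.2 := congrArg HG.t e
  have h2 : g.toAdd.2 = h.toAdd.2 := congrArg HG.c e
  rw [h2] at h1
  exact Prod.ext (add_right_cancel h1) h2

theorem central (t : ZMod 2) (c : R0) : (⟨t, 0, 0, c⟩ : HG R0) ∈ Subgroup.center (HG R0) := by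
  rw [Subgroup.mem_center_iff]
  intro g
  apply HG.ext
  · simp [add_comm]
  · simp
  · simp
  · simp [add_comm]

/-- The amalgam. -/
abbrev GG : Type := Amalgam j1 j2

/-- The normal subgroup. -/
noncomputable abbrev NN : Subgroup (Monoid.Coprod (HG R0) (HG R0)) := Subgroup.normalClosure
    (Set.range fun h : H0 => Monoid.Coprod.inl (j1 h) * (Monoid.Coprod.inr (j2 h))⁻¹)

/-- The map of the first factor. -/
noncomputable def p1 : HG R0 →* GG := (QuotientGroup.mk' NN).comp Monoid.Coprod.inl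

/-- The map of the second factor. -/
noncomputable def p2 : HG R0 →* GG := (QuotientGroup.mk' NN).comp Monoid.Coprod.inr

theorem p_rel (h : H0) : p1 (j1 h) = p2 (j2 h) := by
  have h1 : Monoid.Coprod.inl (j1 h) * (Monoid.Coprod.inr (j2 h))⁻¹ ∈ NN :=
    Subgroup.subset_normalClosure ⟨h, rfl⟩
  have h2 : QuotientGroup.mk' NN (Monoid.Coprod.inl (j1 h) * (Monoid.Coprod.inr (j2 h))⁻¹) = 1 :=
    (QuotientGroup.eq_one_iff _).2 h1
  rw [map_mul, map_inv, mul_inv_eq_one] at h2
  exact h2

/-- The central involution. -/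
noncomputable def u : GG := p1 ⟨1, 0, 0, 0⟩

theorem kill_u (k : ℕ) [Nonempty (Fin k)] (ψ : GG →* Matrix.unitaryGroup (Fin k) ℂ) :
    ψ u = 1 := by
  have f1 := finite_moved k (ψ.comp p1)
  have f2 := finite_moved k (ψ.comp p2)
  obtain ⟨j, hj⟩ := (f1.union f2).exists_notMem
  rw [Set.mem_union, not_or] at hj
  have h1 : ψ (p1 ⟨0, 0, 0, e j⟩) = 1 := not_not.1 hj.1
  have h2 : ψ (p2 ⟨0, 0, 0, e j⟩) = 1 := not_not.1 hj.2
  have h3 := p_rel (Multiplicative.ofAdd (0, e j))
  have h4 := p_rel (Multiplicative.ofAdd (1, 0))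
  have h5 : j1 (Multiplicative.ofAdd (0, e j)) = ⟨0, 0, 0, e j⟩ := rfl
  have h6 : j2 (Multiplicative.ofAdd (0, e j)) = ⟨1, 0, 0, 0⟩ * ⟨0, 0, 0, e j⟩ := by
    apply HG.ext
    · show 0 + σ (e j) = 1 + 0
      rw [σ_e]; rfl
    · simp [j2]
    · simp [j2]
    · simp [j2]
  have h7 : j1 (Multiplicative.ofAdd (1, 0)) = ⟨1, 0, 0, 0⟩ := rfl
  have h8 : j2 (Multiplicative.ofAdd (1, 0)) = ⟨1, 0, 0, 0⟩ := by
    apply HG.ext
    · show 1 + σ 0 = 1
      rw [map_zero, add_zero]
    · rfl
    · rfl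
    · rfl
  rw [h5, h6, map_mul] at h3
  rw [h7, h8] at h4
  have h9 := congrArg ψ h3
  rw [map_mul, h1, h2, mul_one, ← h4] at h9
  exact h9.symm

/-! ### The asymptotic representation -/

/-- Reindexing of unitary matrices. -/
def reU {T T' : Type} [Fintype T] [DecidableEq T] [Fintype T'] [DecidableEq T'] (ε : T ≃ T') :
    Matrix.unitaryGroup T ℂ →* Matrix.unitaryGroup T' ℂ where
  toFun U := ⟨(U : Matrix T T ℂ).submatrix ε.symm ε.symm, by
    rw [Matrix.mem_unitaryGroup_iff, Matrix.star_eq_conjTranspose,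
      Matrix.conjTranspose_submatrix, Matrix.submatrix_mul_equiv, ← Matrix.star_eq_conjTranspose,
      Matrix.mem_unitaryGroup_iff.1 U.2, Matrix.submatrix_one_equiv]⟩
  map_one' := Subtype.ext (Matrix.submatrix_one_equiv _)
  map_mul' U V := Subtype.ext (Matrix.submatrix_mul_equiv _ _ _ _ _).symm

/-- The dimension. -/
def dim (m : ℕ) : ℕ := Fintype.card (Fin m → ZMod 2)

theorem dim_pos (m : ℕ) : 0 < dim m := Fintype.card_pos

/-- The representation of the first factor. -/
noncomputable def ρ1 (m : ℕ) : HG R0 →* Matrix.unitaryGroup (Fin (dim m)) ℂ :=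
  (reU (Fintype.equivFin (Fin m → ZMod 2))).comp ((rep (σm m)).comp (HG.map (res m)))

/-- The representation of the second factor. -/
noncomputable def ρ2 (m : ℕ) : HG R0 →* Matrix.unitaryGroup (Fin (dim m)) ℂ :=
  srep R0 (Fin (dim m))

/-- The representation of the free product. -/
noncomputable def ρ (m : ℕ) :
    Monoid.Coprod (HG R0) (HG R0) →* Matrix.unitaryGroup (Fin (dim m)) ℂ :=
  Monoid.Coprod.lift (ρ1 m) (ρ2 m)

theorem ρ1_central (m : ℕ) (t : ZMod 2) (c : R0) :
    (ρ1 m ⟨t, 0, 0, c⟩ : Matrix (Fin (dim m)) (Fin (dim m)) ℂ) =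
      sgn (t + σm m (res m c)) • (1 : Matrix (Fin (dim m)) (Fin (dim m)) ℂ) := by
  have h0 : HG.map (res m) ⟨t, 0, 0, c⟩ = ⟨t, 0, 0, res m c⟩ :=
    HG.ext rfl (map_zero _) (map_zero _) rfl
  show ((rep (σm m) (HG.map (res m) ⟨t, 0, 0, c⟩) :
    Matrix (Fin m → ZMod 2) (Fin m → ZMod 2) ℂ)).submatrix _ _ = _
  rw [h0, rep_central, Matrix.submatrix_smul]
  exact congrArg (fun N : Matrix (Fin (dim m)) (Fin (dim m)) ℂ => sgn (t + σm m (res m c)) • N)
    (Matrix.submatrix_one_equiv _)

theorem ρ_rel (h : H0) : ∀ᶠ m in atTop,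
    ρ m (Monoid.Coprod.inl (j1 h) * (Monoid.Coprod.inr (j2 h))⁻¹) = 1 := by
  filter_upwards [σm_res h.toAdd.2] with m hm
  rw [map_mul, map_inv, mul_inv_eq_one]
  show (Monoid.Coprod.lift (ρ1 m) (ρ2 m)) (Monoid.Coprod.inl (j1 h)) =
    (Monoid.Coprod.lift (ρ1 m) (ρ2 m)) (Monoid.Coprod.inr (j2 h))
  rw [Monoid.Coprod.lift_apply_inl, Monoid.Coprod.lift_apply_inr]
  apply Subtype.ext
  have h1 := ρ1_central m h.toAdd.1 h.toAdd.2
  rw [hm] at h1
  exact h1

/-- Elements which are eventually killed. -/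
noncomputable def KK : Subgroup (Monoid.Coprod (HG R0) (HG R0)) where
  carrier := {x | ∀ᶠ m in atTop, ρ m x = 1}
  one_mem' := Filter.Eventually.of_forall fun m => map_one _
  mul_mem' := by
    intro x y hx hy
    filter_upwards [hx, hy] with m h1 h2
    rw [map_mul, h1, h2, one_mul]
  inv_mem' := by
    intro x hx
    filter_upwards [hx] with m h1
    rw [map_inv, h1, inv_one]

instance : KK.Normal where
  conj_mem x hx g := by
    filter_upwards [hx] with m h1
    rw [map_mul, map_mul, h1, mul_one, map_inv, mul_inv_cancel]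

theorem NN_le : NN ≤ KK := by
  apply Subgroup.normalClosure_le_normal
  rintro _ ⟨h, rfl⟩
  exact ρ_rel h

theorem ρ_eq_of_mk_eq (x y : Monoid.Coprod (HG R0) (HG R0))
    (h : (QuotientGroup.mk x : GG) = QuotientGroup.mk y) : ∀ᶠ m in atTop, ρ m x = ρ m y := by
  have h1 : x⁻¹ * y ∈ KK := NN_le (QuotientGroup.eq.1 h)
  have h2 : ∀ᶠ m in atTop, ρ m (x⁻¹ * y) = 1 := h1
  filter_upwards [h2] with m hm
  rw [map_mul, map_inv, inv_mul_eq_one] at hm
  exact hm

theorem not_stable : ¬ OperatorNormStable GG := by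
  intro hst
  obtain ⟨ψ, hψ⟩ := hst dim dim_pos (fun m g => ρ m (Quotient.out g)) (by
    intro g h
    have h1 : (QuotientGroup.mk (Quotient.out (g * h)) : GG) =
        QuotientGroup.mk (Quotient.out g * Quotient.out h) := by
      rw [QuotientGroup.mk_mul]
      simp only [QuotientGroup.out_eq']
    have h2 := ρ_eq_of_mk_eq _ _ h1
    apply tendsto_const_nhds.congr'
    filter_upwards [h2] with m hm
    rw [hm, map_mul]
    show (0 : ℝ) = ‖(ρ m (Quotient.out g) : Matrix (Fin (dim m)) (Fin (dim m)) ℂ) *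
      (ρ m (Quotient.out h) : Matrix (Fin (dim m)) (Fin (dim m)) ℂ) -
      (ρ m (Quotient.out g) : Matrix (Fin (dim m)) (Fin (dim m)) ℂ) *
      (ρ m (Quotient.out h) : Matrix (Fin (dim m)) (Fin (dim m)) ℂ)‖
    rw [sub_self, norm_zero])
  have h1 := hψ u
  have h2 : (QuotientGroup.mk (Quotient.out u) : GG) =
      QuotientGroup.mk (Monoid.Coprod.inl (⟨1, 0, 0, 0⟩ : HG R0)) := by
    rw [QuotientGroup.out_eq']; rfl
  have h3 := ρ_eq_of_mk_eq _ _ h2
  have h4 : Tendsto (fun _ : ℕ => (2 : ℝ)) atTop (𝓝 0) := by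
    apply h1.congr'
    filter_upwards [h3] with m hm
    have : Nonempty (Fin (dim m)) := ⟨⟨0, dim_pos m⟩⟩
    rw [hm, kill_u]
    have h5 : (ρ m (Monoid.Coprod.inl (⟨1, 0, 0, 0⟩ : HG R0)) :
        Matrix (Fin (dim m)) (Fin (dim m)) ℂ) = -1 := by
      have h6 : ρ m (Monoid.Coprod.inl (⟨1, 0, 0, 0⟩ : HG R0)) = ρ1 m ⟨1, 0, 0, 0⟩ :=
        Monoid.Coprod.lift_apply_inl _ _ _
      rw [h6, ρ1_central]
      simp [sgn_one]
    rw [h5]
    show ‖(-1 : Matrix (Fin (dim m)) (Fin (dim m)) ℂ) - 1‖ = 2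
    have h6 : (-1 : Matrix (Fin (dim m)) (Fin (dim m)) ℂ) - 1 =
        -((2 : ℂ) • (1 : Matrix (Fin (dim m)) (Fin (dim m)) ℂ)) := by
      rw [two_smul]; abel
    rw [h6, norm_neg, norm_smul, norm_one]
    norm_num
  have h5 := tendsto_nhds_unique h4 tendsto_const_nhds
  norm_num at h5

end Pool.Agent.Q322.OS
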