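import Mathlib

set_option autoImplicit false

/-!
# Operator norm stable groups, amalgams
-/

namespace Pool.Agent.Q322.OS

open Filter Topology
open scoped Matrix.Norms.L2Operator

/-- A group is operator norm stable if for every sequence of positive integers `k n` and all maps
`φ n` from `G` to the unitary group of size `k n` which are asymptotically multiplicative in
operator norm, there are homomorphisms `ψ n` with `‖φ n g - ψ n g‖ → 0` for all `g`. -/
def OperatorNormStable (G : Type) [Group G] : Prop :=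
  ∀ k : ℕ → ℕ, (∀ n, 0 < k n) →
    ∀ φ : ∀ n, G → Matrix.unitaryGroup (Fin (k n)) ℂ,
      (∀ g h : G, Tendsto (fun n => ‖(φ n (g * h) : Matrix (Fin (k n)) (Fin (k n)) ℂ) -
        (φ n g : Matrix (Fin (k n)) (Fin (k n)) ℂ) *
          (φ n h : Matrix (Fin (k n)) (Fin (k n)) ℂ)‖) atTop (𝓝 0)) →
      ∃ ψ : ∀ n, G →* Matrix.unitaryGroup (Fin (k n)) ℂ,
        ∀ g : G, Tendsto (fun n => ‖(φ n g : Matrix (Fin (k n)) (Fin (k n)) ℂ) -
          (ψ n g : Matrix (Fin (k n)) (Fin (k n)) ℂ)‖) atTop (𝓝 0)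

/-- The amalgamated free product of `G₁` and `G₂` along `i₁ : H → G₁` and `i₂ : H → G₂`:
the free product modulo the normal closure of the elements `i₁ h * (i₂ h)⁻¹`. -/
abbrev Amalgam {G₁ G₂ H : Type} [Group G₁] [Group G₂] [Group H] (i₁ : H →* G₁) (i₂ : H →* G₂) :
    Type :=
  Monoid.Coprod G₁ G₂ ⧸ Subgroup.normalClosure
    (Set.range fun h : H => Monoid.Coprod.inl (i₁ h) * (Monoid.Coprod.inr (i₂ h))⁻¹)

end Pool.Agent.Q322.OS
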