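import Mathlib

set_option autoImplicit false

/-!
# The group of quadruples `(t, a, b, c)` over a non-unital commutative ring
-/

set_option linter.unusedSectionVars false

namespace Pool.Agent.Q322.OS

/-- Quadruples `(t, a, b, c)` with `t ∈ ℤ/2` and `a, b, c` in `R`. -/
@[ext] structure HG (R : Type) where
  /-- the coordinate in `ℤ/2` -/
  t : ZMod 2
  /-- the first coordinate -/
  a : R
  /-- the second coordinate -/
  b : R
  /-- the third coordinate -/
  c : R

namespace HG

variable {R S : Type} [NonUnitalCommRing R] [NonUnitalCommRing S]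

instance : Mul (HG R) := ⟨fun g h => ⟨g.t + h.t, g.a + h.a, g.b + h.b, g.c + h.c + g.b * h.a⟩⟩
instance : One (HG R) := ⟨⟨0, 0, 0, 0⟩⟩
instance : Inv (HG R) := ⟨fun g => ⟨-g.t, -g.a, -g.b, -g.c + g.b * g.a⟩⟩

@[simp] theorem mul_t (g h : HG R) : (g * h).t = g.t + h.t := rfl
@[simp] theorem mul_a (g h : HG R) : (g * h).a = g.a + h.a := rfl
@[simp] theorem mul_b (g h : HG R) : (g * h).b = g.b + h.b := rfl
@[simp] theorem mul_c (g h : HG R) : (g * h).c = g.c + h.c + g.b * h.a := rfl
@[simp] theorem one_t : (1 : HG R).t = 0 := rfl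
@[simp] theorem one_a : (1 : HG R).a = 0 := rfl
@[simp] theorem one_b : (1 : HG R).b = 0 := rfl
@[simp] theorem one_c : (1 : HG R).c = 0 := rfl
@[simp] theorem inv_t (g : HG R) : (g⁻¹).t = -g.t := rfl
@[simp] theorem inv_a (g : HG R) : (g⁻¹).a = -g.a := rfl
@[simp] theorem inv_b (g : HG R) : (g⁻¹).b = -g.b := rfl
@[simp] theorem inv_c (g : HG R) : (g⁻¹).c = -g.c + g.b * g.a := rfl

instance : Group (HG R) where
  mul_assoc g h k := by
    ext
    · simp [add_assoc]
    · simp [add_assoc]
    · simp [add_assoc]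
    · simp [mul_add, add_mul]; abel
  one_mul g := by ext <;> simp
  mul_one g := by ext <;> simp
  inv_mul_cancel g := by
    ext
    · show -g.t + g.t = 0
      exact neg_add_cancel _
    · simp
    · simp
    · simp

/-- Functoriality. -/
def map (f : R →ₙ+* S) : HG R →* HG S where
  toFun g := ⟨g.t, f g.a, f g.b, f g.c⟩
  map_one' := by ext <;> simp
  map_mul' g h := by ext <;> simp

@[simp] theorem map_t (f : R →ₙ+* S) (g : HG R) : (map f g).t = g.t := rfl
@[simp] theorem map_a (f : R →ₙ+* S) (g : HG R) : (map f g).a = f g.a := rfl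
@[simp] theorem map_b (f : R →ₙ+* S) (g : HG R) : (map f g).b = f g.b := rfl
@[simp] theorem map_c (f : R →ₙ+* S) (g : HG R) : (map f g).c = f g.c := rfl

theorem inj4 : Function.Injective (fun g : HG R => (g.t, g.a, g.b, g.c)) := by
  intro g h e
  simp only [Prod.mk.injEq] at e
  exact HG.ext e.1 e.2.1 e.2.2.1 e.2.2.2

instance [Finite R] : Finite (HG R) := Finite.of_injective _ inj4

instance [Countable R] : Countable (HG R) := inj4.countable

end HG

/-! ### The sign -/

/-- The sign of an element of `ℤ/2`. -/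
def sgn (t : ZMod 2) : ℂ := if t = 0 then 1 else -1

theorem zmod2 : ∀ t : ZMod 2, t = 0 ∨ t = 1 := by decide

theorem sgn_zero : sgn 0 = 1 := if_pos rfl

theorem sgn_one : sgn 1 = -1 := if_neg (by decide)

theorem sgn_add (s t : ZMod 2) : sgn (s + t) = sgn s * sgn t := by
  rcases zmod2 s with rfl | rfl <;> rcases zmod2 t with rfl | rfl
  · rw [add_zero, sgn_zero, one_mul]
  · rw [zero_add, sgn_zero, one_mul]
  · rw [add_zero, sgn_zero, mul_one]
  · rw [show (1 : ZMod 2) + 1 = 0 by decide, sgn_zero, sgn_one]; norm_num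

theorem sgn_mul_self (t : ZMod 2) : sgn t * sgn t = 1 := by
  rcases zmod2 t with rfl | rfl
  · rw [sgn_zero, one_mul]
  · rw [sgn_one]; norm_num

theorem star_sgn (t : ZMod 2) : star (sgn t) = sgn t := by
  rcases zmod2 t with rfl | rfl
  · rw [sgn_zero, star_one]
  · rw [sgn_one, star_neg, star_one]

/-! ### The representation of the finite groups -/

section rep

variable {R : Type} [NonUnitalCommRing R] [Fintype R] [DecidableEq R] (s : R →+ ZMod 2)

/-- The exponent. -/
def ex (g : HG R) (x : R) : ZMod 2 := g.t + s (g.c + g.a * x)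

theorem ex_mul (g h : HG R) (x : R) : ex s (g * h) x = ex s g x + ex s h (x + g.b) := by
  simp only [ex, HG.mul_t, HG.mul_c, HG.mul_a, map_add, add_mul, mul_add]
  rw [mul_comm g.b h.a]
  abel

/-- The matrix of a group element. -/
def mat (g : HG R) : Matrix R R ℂ := fun x y => if y = x + g.b then sgn (ex s g x) else 0

theorem mat_mul (g h : HG R) : mat s (g * h) = mat s g * mat s h := by
  ext x z
  rw [Matrix.mul_apply]
  simp only [mat, ite_mul, zero_mul, Finset.sum_ite_eq', Finset.mem_univ, if_true]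
  rw [ex_mul, sgn_add, HG.mul_b, ← add_assoc]
  by_cases h : z = x + g.b + h.b
  · simp [h]
  · simp [h]

theorem mat_one : mat s (1 : HG R) = 1 := by
  ext x y
  simp only [mat, HG.one_b, add_zero, Matrix.one_apply]
  by_cases h : x = y
  · subst h
    simp [ex, sgn_zero]
  · rw [if_neg (Ne.symm h), if_neg h]

theorem star_mat (g : HG R) : star (mat s g) = mat s g⁻¹ := by
  ext x y
  rw [Matrix.star_apply]
  simp only [mat, HG.inv_b]
  by_cases h : x = y + g.b
  · have h2 : y = x + -g.b := by rw [h]; abel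
    rw [if_pos h, if_pos h2, star_sgn]
    have e := ex_mul s g g⁻¹ y
    rw [mul_inv_cancel, ← h] at e
    have e0 : ex s (1 : HG R) y = 0 := by simp [ex]
    rw [e0] at e
    have e3 : sgn (ex s g y) * sgn (ex s g⁻¹ x) = 1 := by rw [← sgn_add, ← e, sgn_zero]
    calc sgn (ex s g y) = sgn (ex s g y) * (sgn (ex s g⁻¹ x) * sgn (ex s g⁻¹ x)) := by
          rw [sgn_mul_self, mul_one]
      _ = sgn (ex s g⁻¹ x) := by rw [← mul_assoc, e3, one_mul]
  · have h2 : ¬ y = x + -g.b := fun h' => h (by rw [h']; abel)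
    rw [if_neg h, if_neg h2, star_zero]

/-- The representation. -/
def rep : HG R →* Matrix.unitaryGroup R ℂ where
  toFun g := ⟨mat s g, by
    rw [Matrix.mem_unitaryGroup_iff, star_mat, ← mat_mul, mul_inv_cancel, mat_one]⟩
  map_one' := Subtype.ext (mat_one s)
  map_mul' g h := Subtype.ext (mat_mul s g h)

theorem rep_central (t : ZMod 2) (c : R) :
    (rep s ⟨t, 0, 0, c⟩ : Matrix R R ℂ) = sgn (t + s c) • (1 : Matrix R R ℂ) := by
  ext x y
  show mat s ⟨t, 0, 0, c⟩ x y = _
  rw [Matrix.smul_apply, Matrix.one_apply]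
  simp only [mat, ex, zero_mul, add_zero]
  by_cases h : x = y
  · subst h; simp
  · rw [if_neg (Ne.symm h), if_neg h, smul_zero]

/-- The scalar representation `(t, a, b, c) ↦ (-1)^t`. -/
def srep (R : Type) [NonUnitalCommRing R] (T : Type) [Fintype T] [DecidableEq T] :
    HG R →* Matrix.unitaryGroup T ℂ where
  toFun g := ⟨sgn g.t • (1 : Matrix T T ℂ), by
    rw [Matrix.mem_unitaryGroup_iff, star_smul, star_sgn, star_one, smul_mul_smul_comm,
      sgn_mul_self, one_smul, one_mul]⟩
  map_one' := Subtype.ext (by simp [sgn_zero])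
  map_mul' g h := Subtype.ext (by
    show sgn (g * h).t • (1 : Matrix T T ℂ) = (sgn g.t • (1 : Matrix T T ℂ)) * (sgn h.t • 1)
    rw [HG.mul_t, sgn_add, smul_mul_smul_comm, one_mul])

end rep

end Pool.Agent.Q322.OS
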