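import Pool.Agent.Q322.OS.Ulam
import Pool.Agent.Q322.OS.Defs

set_option autoImplicit false

/-!
# Groups with enough finite retracts are operator norm stable
-/

namespace Pool.Agent.Q322.OS

open Filter Topology
open scoped Matrix.Norms.L2Operator

theorem stable_of_retracts (G : Type) [Group G] (F : ℕ → Type) [∀ m, Group (F m)]
    [∀ m, Finite (F m)] (r : ∀ m, G →* F m) (s : ∀ m, F m →* G)
    (hrs : ∀ g, ∀ᶠ m in atTop, s m (r m g) = g) : OperatorNormStable G := by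
  classical
  intro k hk φ hφ
  have hne : ∀ n, Nonempty (Fin (k n)) := fun n => ⟨⟨0, hk n⟩⟩
  -- the defect on `F m` of `φ n` is at most `1 / (32 (m + 1))`
  let P : ℕ → ℕ → Prop := fun n m => Def (A := Matrix (Fin (k n)) (Fin (k n)) ℂ)
    (fun x : F m => φ n (s m x)) (1 / (32 * ((m : ℝ) + 1)))
  have hP : ∀ m, ∀ᶠ n in atTop, P n m := by
    intro m
    have h1 : ∀ x y : F m, ∀ᶠ n in atTop, ‖((φ n (s m (x * y)) :
        Matrix.unitaryGroup (Fin (k n)) ℂ) : Matrix (Fin (k n)) (Fin (k n)) ℂ) -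
        (φ n (s m x) : Matrix (Fin (k n)) (Fin (k n)) ℂ) *
          (φ n (s m y) : Matrix (Fin (k n)) (Fin (k n)) ℂ)‖ ≤ 1 / (32 * ((m : ℝ) + 1)) := by
      intro x y
      have h2 := hφ (s m x) (s m y)
      rw [← map_mul] at h2
      have h3 : (0 : ℝ) < 1 / (32 * ((m : ℝ) + 1)) := by positivity
      exact (h2.eventually (gt_mem_nhds h3)).mono fun n hn => le_of_lt hn
    have h4 : ∀ᶠ n in atTop, ∀ x y : F m, ‖((φ n (s m (x * y)) :
        Matrix.unitaryGroup (Fin (k n)) ℂ) : Matrix (Fin (k n)) (Fin (k n)) ℂ) -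
        (φ n (s m x) : Matrix (Fin (k n)) (Fin (k n)) ℂ) *
          (φ n (s m y) : Matrix (Fin (k n)) (Fin (k n)) ℂ)‖ ≤ 1 / (32 * ((m : ℝ) + 1)) := by
      rw [eventually_all]
      intro x
      rw [eventually_all]
      exact h1 x
    exact h4
  let μ : ℕ → ℕ := fun n => Nat.findGreatest (P n) n
  have hμ : ∀ M, ∀ᶠ n in atTop, M ≤ μ n ∧ P n (μ n) := by
    intro M
    filter_upwards [hP M, eventually_ge_atTop M] with n h1 h2
    exact ⟨Nat.le_findGreatest h2 h1, Nat.findGreatest_spec h2 h1⟩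
  have hex : ∀ n, ∃ ψ : G →* Matrix.unitaryGroup (Fin (k n)) ℂ, P n (μ n) →
      ∀ g, s (μ n) (r (μ n) g) = g → ‖(φ n g : Matrix (Fin (k n)) (Fin (k n)) ℂ) -
        (ψ g : Matrix (Fin (k n)) (Fin (k n)) ℂ)‖ ≤ 4 * (1 / (32 * ((μ n : ℝ) + 1))) := by
    intro n
    by_cases h : P n (μ n)
    · haveI := hne n
      haveI : Fintype (F (μ n)) := Fintype.ofFinite _
      obtain ⟨ψ, hψ⟩ := ulam (A := Matrix (Fin (k n)) (Fin (k n)) ℂ)
        (fun x : F (μ n) => φ n (s (μ n) x)) (1 / (32 * ((μ n : ℝ) + 1))) (by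
          apply one_div_le_one_div_of_le (by norm_num)
          have : (0 : ℝ) ≤ μ n := Nat.cast_nonneg _
          linarith) h
      refine ⟨MonoidHom.comp ψ (r (μ n)), fun _ g hg => ?_⟩
      have := hψ (r (μ n) g)
      simp only [hg] at this
      exact this
    · exact ⟨1, fun h' => absurd h' h⟩
  choose ψ hψ using hex
  refine ⟨ψ, fun g => ?_⟩
  rw [Metric.tendsto_atTop']
  intro ε hε
  obtain ⟨N, hN⟩ := exists_nat_gt (1 / ε)
  obtain ⟨M, hM⟩ := eventually_atTop.1 (hrs g)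
  obtain ⟨n₀, hn₀⟩ := eventually_atTop.1 (hμ (max N M))
  refine ⟨n₀, fun n hn => ?_⟩
  obtain ⟨h1, h2⟩ := hn₀ n hn.le
  have h3 := hψ n h2 g (hM _ ((le_max_right _ _).trans h1))
  rw [dist_zero_right, norm_norm]
  refine lt_of_le_of_lt h3 ?_
  have h4 : (N : ℝ) ≤ μ n := by exact_mod_cast (le_max_left _ _).trans h1
  have h5 : 1 / ε < (μ n : ℝ) + 1 := by linarith
  have h6 : 1 / ((μ n : ℝ) + 1) < ε := by
    rw [div_lt_iff₀ (by positivity)]
    rw [div_lt_iff₀ hε] at h5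
    linarith
  have h7 : 4 * (1 / (32 * ((μ n : ℝ) + 1))) = (1 / 8) * (1 / ((μ n : ℝ) + 1)) := by
    field_simp; norm_num
  rw [h7]
  have h8 : 0 < 1 / ((μ n : ℝ) + 1) := by positivity
  linarith

end Pool.Agent.Q322.OS
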