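import Pool.Agent.Q322.OS.HG
import Pool.Agent.Q322.OS.Loc

set_option autoImplicit false

/-!
# Finite dimensional representations kill almost all central coordinates
-/

namespace Pool.Agent.Q322.OS

open Filter Topology
open scoped Matrix.Norms.L2Operator

/-- The ring of finitely supported functions with pointwise operations. -/
abbrev R0 : Type := ℕ →₀ ZMod 2

/-- The unit vectors. -/
noncomputable abbrev e (j : ℕ) : R0 := Finsupp.single j 1

theorem e_mul_self (j : ℕ) : e j * e j = e j := by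
  ext i
  simp [e, Finsupp.single_apply]

theorem e_mul_ne {i j : ℕ} (h : i ≠ j) : e i * e j = 0 := by
  ext l
  simp only [e, Finsupp.mul_apply, Finsupp.single_apply, Finsupp.coe_zero, Pi.zero_apply]
  by_cases h1 : i = l
  · have : j ≠ l := fun h2 => h (h1.trans h2.symm)
    simp [this]
  · simp [h1]

theorem two_zero (f : R0) : f + f = 0 := by
  ext l
  rw [Finsupp.add_apply]
  exact CharTwo.add_self_eq_zero _

theorem sep {A : Type} [CStarAlgebra A] (X Y Z W : unitary A) (r1 : Y * X = Z * (X * Y))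
    (r2 : Y * W = W * Y) (r3 : Z * Z = 1) (hZ : Z ≠ 1) : 1 ≤ ‖(X : A) - W‖ := by
  have q1 : (Y : A) * X = Z * (X * Y) := congrArg Subtype.val r1
  have q2 : (Y : A) * W = W * Y := congrArg Subtype.val r2
  have q3 : (Z : A) * Z = 1 := congrArg Subtype.val r3
  have hZ1 : (Z : A) - 1 ≠ 0 := fun h => hZ (Subtype.ext (sub_eq_zero.1 h))
  have hZn : 2 ≤ ‖(Z : A) - 1‖ := by
    have h1 : ((Z : A) - 1) * (Z - 1) = -((2 : ℂ) • ((Z : A) - 1)) := by
      have : ((Z : A) - 1) * (Z - 1) = Z * Z - Z - Z + 1 := by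
        rw [sub_mul, mul_sub, mul_one, one_mul]; abel
      rw [this, q3, two_smul]
      abel
    have h2 : ‖((Z : A) - 1) * (Z - 1)‖ ≤ ‖(Z : A) - 1‖ * ‖(Z : A) - 1‖ := norm_mul_le _ _
    rw [h1, norm_neg, norm_smul] at h2
    have h3 : 0 < ‖(Z : A) - 1‖ := norm_pos_iff.2 hZ1
    have h4 : ‖(2 : ℂ)‖ = 2 := by norm_num
    rw [h4] at h2
    exact le_of_mul_le_mul_right h2 h3
  have h5 : ((Z : A) - 1) * (X * Y) = Y * (X - W) - (X - W) * Y := by
    rw [sub_mul, ← q1, one_mul, mul_sub, sub_mul, q2]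
    abel
  have h6 : ‖((Z : A) - 1) * (X * Y)‖ = ‖(Z : A) - 1‖ := by
    rw [← mul_assoc]
    rw [CStarRing.norm_mul_coe_unitary, CStarRing.norm_mul_coe_unitary]
  have h7 : ‖(Y : A) * (X - W) - (X - W) * Y‖ ≤ ‖(X : A) - W‖ + ‖(X : A) - W‖ := by
    refine (norm_sub_le _ _).trans ?_
    rw [CStarRing.norm_mul_coe_unitary, CStarRing.norm_coe_unitary_mul]
  rw [← h5, h6] at h7
  linarith

theorem finite_moved (k : ℕ) [Nonempty (Fin k)] (ψ : HG R0 →* Matrix.unitaryGroup (Fin k) ℂ) :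
    {j : ℕ | ψ ⟨0, 0, 0, e j⟩ ≠ 1}.Finite := by
  by_contra hinf
  have hinf' : {j : ℕ | ψ ⟨0, 0, 0, e j⟩ ≠ 1}.Infinite := hinf
  let P : ℕ → Matrix (Fin k) (Fin k) ℂ := fun j => (ψ ⟨0, e j, 0, 0⟩ : Matrix (Fin k) (Fin k) ℂ)
  let f := hinf'.natEmbedding
  -- separation
  have hsep : ∀ i j : ℕ, i ≠ j → ψ ⟨0, 0, 0, e i⟩ ≠ 1 → 1 ≤ ‖P i - P j‖ := by
    intro i j hij hi
    have r1 : (⟨0, 0, e i, 0⟩ : HG R0) * ⟨0, e i, 0, 0⟩ =
        ⟨0, 0, 0, e i⟩ * (⟨0, e i, 0, 0⟩ * ⟨0, 0, e i, 0⟩) := by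
      ext <;> simp [e_mul_self]
    have r2 : (⟨0, 0, e i, 0⟩ : HG R0) * ⟨0, e j, 0, 0⟩ = ⟨0, e j, 0, 0⟩ * ⟨0, 0, e i, 0⟩ := by
      ext <;> simp [e_mul_ne hij]
    have r3 : (⟨0, 0, 0, e i⟩ : HG R0) * ⟨0, 0, 0, e i⟩ = 1 := by
      apply HG.ext
      · simp
      · simp
      · simp
      · simp [two_zero]
    refine sep (A := Matrix (Fin k) (Fin k) ℂ) (ψ ⟨0, e i, 0, 0⟩) (ψ ⟨0, 0, e i, 0⟩)
      (ψ ⟨0, 0, 0, e i⟩) (ψ ⟨0, e j, 0, 0⟩) ?_ ?_ ?_ hi
    · exact (map_mul ψ _ _).symm.trans ((congrArg ψ r1).trans ((map_mul ψ _ _).trans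
        (congrArg _ (map_mul ψ _ _))))
    · exact (map_mul ψ _ _).symm.trans ((congrArg ψ r2).trans (map_mul ψ _ _))
    · exact (map_mul ψ _ _).symm.trans ((congrArg ψ r3).trans (map_one ψ))
  have hball : ∀ n : ℕ, P (f n) ∈ Metric.closedBall (0 : Matrix (Fin k) (Fin k) ℂ) 1 := by
    intro n
    rw [mem_closedBall_zero_iff]
    exact (CStarRing.norm_coe_unitary _).le
  have : ProperSpace (Matrix (Fin k) (Fin k) ℂ) := FiniteDimensional.proper ℂ _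
  obtain ⟨a, -, θ, hθ, hlim⟩ :=
    (isCompact_closedBall (0 : Matrix (Fin k) (Fin k) ℂ) 1).tendsto_subseq hball
  have hc := hlim.cauchySeq
  obtain ⟨N, hN⟩ := Metric.cauchySeq_iff.1 hc 1 one_pos
  have h1 := hN N le_rfl (N + 1) (Nat.le_succ N)
  rw [dist_eq_norm] at h1
  have hne : ((f (θ N) : ℕ)) ≠ (f (θ (N + 1)) : ℕ) := by
    intro h
    have h2 := f.injective (Subtype.ext h)
    exact absurd (hθ (Nat.lt_succ_self N)) (by rw [Nat.succ_eq_add_one, h2]; exact lt_irrefl _)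
  have h2 := hsep _ _ hne (f (θ N)).2
  exact absurd h1 (not_lt.2 h2)

end Pool.Agent.Q322.OS
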