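import Mathlib

set_option autoImplicit false

/-!
# Almost homomorphisms of finite groups into unitary groups of C*-algebras are near homomorphisms
-/

namespace Pool.Agent.Q322.OS

open Filter Topology

variable {A : Type*} [CStarAlgebra A]

theorem unit_of_near (a : A) (h : ‖a - 1‖ < 1) : IsUnit a := by
  have h1 : ‖1 - a‖ < 1 := by rwa [norm_sub_rev]
  have := isUnit_one_sub_of_norm_lt_one h1
  simpa using this

/-- An element which is nearly unitary is near a unitary. -/
theorem exists_unitary_near [Nontrivial A] (M : A) (ε : ℝ) (hε : ε ≤ 1 / 2)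
    (h1 : ‖star M * M - 1‖ ≤ ε) (h2 : ‖M * star M - 1‖ ≤ ε) :
    ∃ U : unitary A, ‖M - U‖ ≤ ε := by
  have hε0 : 0 ≤ ε := (norm_nonneg _).trans h1
  set a : A := star M * M with ha
  have hsa : IsSelfAdjoint a := IsSelfAdjoint.star_mul_self M
  have hsp : ∀ t ∈ spectrum ℝ a, |t - 1| ≤ ε := by
    intro t ht
    have h3 : t - 1 ∈ spectrum ℝ (a - 1) := by
      rw [spectrum.mem_iff] at ht ⊢
      have : algebraMap ℝ A (t - 1) - (a - 1) = algebraMap ℝ A t - a := by
        rw [map_sub, map_one]; abel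
      rwa [this]
    have h5 := spectrum.norm_le_norm_of_mem h3
    rw [Real.norm_eq_abs] at h5
    exact h5.trans h1
  have hpos : ∀ t ∈ spectrum ℝ a, 0 < t := fun t ht => by
    have := abs_le.1 (hsp t ht)
    linarith [this.1]
  have hcont : ContinuousOn (fun t : ℝ => (Real.sqrt t)⁻¹) (spectrum ℝ a) :=
    ContinuousOn.inv₀ Real.continuous_sqrt.continuousOn
      (fun t ht => (Real.sqrt_pos.2 (hpos t ht)).ne')
  have hcs : ContinuousOn (fun t : ℝ => Real.sqrt t) (spectrum ℝ a) :=
    Real.continuous_sqrt.continuousOn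
  set b : A := cfc (fun t : ℝ => (Real.sqrt t)⁻¹) a with hb
  set c : A := cfc (fun t : ℝ => Real.sqrt t) a with hc
  have hbs : star b = b := (cfc_predicate (fun t : ℝ => (Real.sqrt t)⁻¹) a).star_eq
  have hbc : b * c = 1 := by
    rw [hb, hc, ← cfc_mul _ _ a hcont hcs, ← cfc_const_one ℝ a]
    apply cfc_congr
    intro t ht
    exact inv_mul_cancel₀ (Real.sqrt_pos.2 (hpos t ht)).ne'
  have hba : b * a = c := by
    conv_lhs => rw [← cfc_id' ℝ a]
    rw [hb, hc]
    rw [← cfc_mul _ (fun x : ℝ => x) a hcont continuousOn_id]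
    apply cfc_congr
    intro t ht
    have h3 := Real.mul_self_sqrt (hpos t ht).le
    have h4 := (Real.sqrt_pos.2 (hpos t ht)).ne'
    show (Real.sqrt t)⁻¹ * t = Real.sqrt t
    rw [inv_mul_eq_div, div_eq_iff h4, h3]
  have hcb : c * b = 1 := by
    rw [hb, hc, ← cfc_mul _ _ a hcs hcont, ← cfc_const_one ℝ a]
    apply cfc_congr
    intro t ht
    exact mul_inv_cancel₀ (Real.sqrt_pos.2 (hpos t ht)).ne'
  have hab : a * b = c := by
    have : star (b * a) = star c := by rw [hba]
    rw [star_mul, hbs, hsa.star_eq] at this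
    rw [this]
    exact (cfc_predicate (fun t : ℝ => Real.sqrt t) a).star_eq
  have hu1 : star (M * b) * (M * b) = 1 := by
    rw [star_mul, hbs]
    calc b * star M * (M * b) = b * (star M * M) * b := by simp only [mul_assoc]
      _ = 1 := by rw [← ha, hba, hcb]
  have hu2 : (M * b) * star (M * b) = 1 := by
    rw [star_mul, hbs]
    have hX : IsUnit (M * star M) := unit_of_near _ (lt_of_le_of_lt h2 (by linarith))
    refine hX.mul_left_injective ?_
    show M * b * (b * star M) * (M * star M) = 1 * (M * star M)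
    calc M * b * (b * star M) * (M * star M) = M * (b * (b * (star M * M))) * star M := by
          simp only [mul_assoc]
      _ = M * star M := by rw [← ha, hba, hbc, mul_one]
      _ = _ := (one_mul _).symm
  let U : unitary A := ⟨M * b, Unitary.mem_iff.2 ⟨hu1, hu2⟩⟩
  refine ⟨U, ?_⟩
  have hMU : M - U = U * (c - 1) := by
    show M - M * b = M * b * (c - 1)
    rw [mul_sub, mul_assoc, hbc]; simp
  rw [hMU, CStarRing.norm_coe_unitary_mul]
  rw [show c - 1 = cfc (fun t : ℝ => Real.sqrt t - 1) a by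
    rw [cfc_sub (fun t : ℝ => Real.sqrt t) (fun _ => (1 : ℝ)) a hcs continuousOn_const,
      cfc_const_one ℝ a]]
  apply norm_cfc_le hε0
  intro t ht
  have h3 := hsp t ht
  have h4 := (hpos t ht).le
  have h5 := Real.mul_self_sqrt h4
  have h6 := Real.sqrt_nonneg t
  rw [Real.norm_eq_abs]
  have h7 : |t - 1| = |Real.sqrt t - 1| * (Real.sqrt t + 1) := by
    rw [← abs_of_nonneg (by linarith : 0 ≤ Real.sqrt t + 1), ← abs_mul]
    congr 1
    nlinarith
  calc |Real.sqrt t - 1| ≤ |Real.sqrt t - 1| * (Real.sqrt t + 1) := by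
        have := abs_nonneg (Real.sqrt t - 1)
        nlinarith
    _ = |t - 1| := h7.symm
    _ ≤ ε := h3

/-! ### Averages -/

/-- The average of a function on a finite set. -/
noncomputable def avg {F : Type} [Fintype F] (X : F → A) : A :=
  ((Fintype.card F : ℂ)⁻¹) • ∑ k, X k

section avg

variable {F : Type} [Fintype F]

theorem avg_const [Nonempty F] (c : A) : avg (fun _ : F => c) = c := by
  have h : (Fintype.card F : ℂ) ≠ 0 := by exact_mod_cast Fintype.card_ne_zero
  rw [avg, Finset.sum_const, Finset.card_univ, ← Nat.cast_smul_eq_nsmul ℂ, smul_smul,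
    inv_mul_cancel₀ h, one_smul]

theorem avg_sub (X Y : F → A) : avg (fun k => X k - Y k) = avg X - avg Y := by
  simp only [avg, Finset.sum_sub_distrib, smul_sub]

theorem avg_add (X Y : F → A) : avg (fun k => X k + Y k) = avg X + avg Y := by
  simp only [avg, Finset.sum_add_distrib, smul_add]

theorem avg_mul_const (X : F → A) (c : A) : avg (fun k => X k * c) = avg X * c := by
  simp only [avg, ← Finset.sum_mul, smul_mul_assoc]

theorem avg_const_mul (X : F → A) (c : A) : avg (fun k => c * X k) = c * avg X := by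
  simp only [avg, ← Finset.mul_sum, mul_smul_comm]

theorem star_avg (X : F → A) : star (avg X) = avg (fun k => star (X k)) := by
  simp only [avg, star_smul, star_sum]
  congr 1
  simp

theorem avg_equiv (X : F → A) (e : F ≃ F) : avg (fun k => X (e k)) = avg X := by
  simp only [avg]
  rw [Equiv.sum_comp e X]

theorem norm_avg_le [Nonempty F] (X : F → A) (c : ℝ) (h : ∀ k, ‖X k‖ ≤ c) : ‖avg X‖ ≤ c := by
  have hn : (0 : ℝ) < Fintype.card F := by exact_mod_cast Fintype.card_pos
  rw [avg, norm_smul, norm_inv, Complex.norm_natCast]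
  rw [inv_mul_le_iff₀ hn]
  calc ‖∑ k, X k‖ ≤ ∑ k, ‖X k‖ := norm_sum_le _ _
    _ ≤ ∑ _k : F, c := Finset.sum_le_sum fun k _ => h k
    _ = Fintype.card F * c := by rw [Finset.sum_const, Finset.card_univ, nsmul_eq_mul]

theorem cov [Nonempty F] (X Y : F → A) : avg (fun k => X k * Y k) - avg X * avg Y =
    avg (fun k => (X k - avg X) * (Y k - avg Y)) := by
  have h : (fun k => (X k - avg X) * (Y k - avg Y)) = fun k =>
      (X k * Y k - X k * avg Y) - (avg X * Y k - avg X * avg Y) := by
    funext k; noncomm_ring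
  rw [h, avg_sub, avg_sub, avg_sub, avg_mul_const, avg_const_mul, avg_const]
  abel

end avg

/-- The defect of a map is at most `δ`. -/
def Def {F : Type} [Group F] (φ : F → unitary A) (δ : ℝ) : Prop :=
  ∀ g h, ‖((φ (g * h) : unitary A) : A) - φ g * φ h‖ ≤ δ

section step

variable {F : Type} [Group F] [Fintype F]

set_option linter.unusedSectionVars false

/-- The improved map. -/
noncomputable def imp (φ : F → unitary A) (g : F) : A :=
  avg (fun k => (φ (g * k) : A) * star (φ k : A))

theorem star_imp (φ : F → unitary A) (g : F) : star (imp φ g) = imp φ g⁻¹ := by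
  rw [imp, star_avg, imp]
  rw [← avg_equiv (fun k => (φ (g⁻¹ * k) : A) * star (φ k : A)) (Equiv.mulLeft g)]
  congr 1
  funext k
  simp

theorem imp_one (φ : F → unitary A) : imp φ 1 = 1 := by
  rw [imp]
  simp [avg_const]

theorem mul_star_self_eq (u : unitary A) : (u : A) * star (u : A) = 1 :=
  Unitary.mul_star_self_of_mem u.2

theorem star_mul_self_eq (u : unitary A) : star (u : A) * (u : A) = 1 :=
  Unitary.star_mul_self_of_mem u.2

theorem norm_X (φ : F → unitary A) (δ : ℝ) (h : Def φ δ) (g k : F) :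
    ‖(φ (g * k) : A) * star (φ k : A) - φ g‖ ≤ δ := by
  have : (φ (g * k) : A) * star (φ k : A) - φ g =
      ((φ (g * k) : A) - φ g * φ k) * ((star (φ k) : unitary A) : A) := by
    rw [sub_mul, Unitary.coe_star, mul_assoc, mul_star_self_eq, mul_one]
  rw [this, CStarRing.norm_mul_coe_unitary]
  exact h g k

theorem norm_imp_sub (φ : F → unitary A) (δ : ℝ) (h : Def φ δ) (g : F) :
    ‖imp φ g - φ g‖ ≤ δ := by
  have : imp φ g - φ g = avg (fun k => (φ (g * k) : A) * star (φ k : A) - φ g) := by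
    rw [avg_sub, avg_const]; rfl
  rw [this]
  exact norm_avg_le _ _ (norm_X φ δ h g)

theorem norm_imp_le [Nontrivial A] (φ : F → unitary A) (g : F) : ‖imp φ g‖ ≤ 1 := by
  apply norm_avg_le
  intro k
  rw [← Unitary.coe_star, CStarRing.norm_mul_coe_unitary]
  exact (CStarRing.norm_coe_unitary _).le

theorem imp_mul (φ : F → unitary A) (δ : ℝ) (h : Def φ δ) (g l : F) :
    ‖imp φ (g * l) - imp φ g * imp φ l‖ ≤ 4 * δ ^ 2 := by
  have e1 : imp φ g = avg (fun k => (φ (g * (l * k)) : A) * star (φ (l * k) : A)) := by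
    rw [imp, ← avg_equiv _ (Equiv.mulLeft l)]
    rfl
  have e2 : imp φ (g * l) = avg (fun k => ((φ (g * (l * k)) : A) * star (φ (l * k) : A)) *
      ((φ (l * k) : A) * star (φ k : A))) := by
    rw [imp]
    congr 1
    funext k
    rw [mul_assoc g l k, mul_assoc (φ (g * (l * k)) : A), ← mul_assoc (star (φ (l * k) : A)),
      star_mul_self_eq, one_mul]
  have e3 : imp φ l = avg (fun k => (φ (l * k) : A) * star (φ k : A)) := rfl
  have e4 := cov (fun k => (φ (g * (l * k)) : A) * star (φ (l * k) : A))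
    (fun k => (φ (l * k) : A) * star (φ k : A))
  rw [← e1, ← e2, ← e3] at e4
  rw [e4]
  apply norm_avg_le
  intro k
  have b1 : ‖(φ (g * (l * k)) : A) * star (φ (l * k) : A) - imp φ g‖ ≤ 2 * δ := by
    calc _ = ‖((φ (g * (l * k)) : A) * star (φ (l * k) : A) - φ g) - (imp φ g - φ g)‖ := by
          congr 1; abel
      _ ≤ _ := (norm_sub_le _ _).trans (by
          linarith [norm_X φ δ h g (l * k), norm_imp_sub φ δ h g])
  have b2 : ‖(φ (l * k) : A) * star (φ k : A) - imp φ l‖ ≤ 2 * δ := by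
    calc _ = ‖((φ (l * k) : A) * star (φ k : A) - φ l) - (imp φ l - φ l)‖ := by
          congr 1; abel
      _ ≤ _ := (norm_sub_le _ _).trans (by
          linarith [norm_X φ δ h l k, norm_imp_sub φ δ h l])
  calc _ ≤ _ := norm_mul_le _ _
    _ ≤ (2 * δ) * (2 * δ) := mul_le_mul b1 b2 (norm_nonneg _) ((norm_nonneg _).trans b1)
    _ = _ := by ring

theorem step [Nontrivial A] (φ : F → unitary A) (δ : ℝ) (hδ : δ ≤ 1 / 32) (h : Def φ δ) :
    ∃ φ' : F → unitary A, Def φ' (δ / 2) ∧ ∀ g, ‖(φ g : A) - φ' g‖ ≤ 2 * δ := by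
  have h0 : 0 ≤ δ := (norm_nonneg _).trans (h 1 1)
  have hex : ∀ g, ∃ U : unitary A, ‖imp φ g - U‖ ≤ 4 * δ ^ 2 := by
    intro g
    apply exists_unitary_near
    · nlinarith
    · have := imp_mul φ δ h g⁻¹ g
      rw [inv_mul_cancel, imp_one, ← star_imp] at this
      rwa [norm_sub_rev]
    · have := imp_mul φ δ h g g⁻¹
      rw [mul_inv_cancel, imp_one, ← star_imp] at this
      rwa [norm_sub_rev]
  choose U hU using hex
  have hd : 4 * δ ^ 2 ≤ δ / 8 := by nlinarith
  refine ⟨U, fun g l => ?_, fun g => ?_⟩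
  · have e : (U (g * l) : A) - U g * U l = -(imp φ (g * l) - U (g * l)) +
        (imp φ (g * l) - imp φ g * imp φ l) + ((imp φ g - U g) * imp φ l +
          U g * (imp φ l - U l)) := by noncomm_ring
    have n1 : ‖(imp φ g - U g) * imp φ l‖ ≤ 4 * δ ^ 2 := by
      calc _ ≤ _ := norm_mul_le _ _
        _ ≤ (4 * δ ^ 2) * 1 := mul_le_mul (hU g) (norm_imp_le φ l) (norm_nonneg _) (by positivity)
        _ = _ := mul_one _
    have n2 : ‖(U g : A) * (imp φ l - U l)‖ ≤ 4 * δ ^ 2 := by
      rw [CStarRing.norm_coe_unitary_mul]; exact hU l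
    have n3 := imp_mul φ δ h g l
    have n4 := hU (g * l)
    rw [e]
    calc _ ≤ ‖-(imp φ (g * l) - U (g * l)) + (imp φ (g * l) - imp φ g * imp φ l)‖ +
          ‖(imp φ g - U g) * imp φ l + U g * (imp φ l - U l)‖ := norm_add_le _ _
      _ ≤ (‖-(imp φ (g * l) - U (g * l))‖ + ‖imp φ (g * l) - imp φ g * imp φ l‖) +
          (‖(imp φ g - U g) * imp φ l‖ + ‖(U g : A) * (imp φ l - U l)‖) :=
        add_le_add (norm_add_le _ _) (norm_add_le _ _)
      _ ≤ (4 * δ ^ 2 + 4 * δ ^ 2) + (4 * δ ^ 2 + 4 * δ ^ 2) := by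
        rw [norm_neg]
        exact add_le_add (add_le_add n4 n3) (add_le_add n1 n2)
      _ ≤ δ / 2 := by linarith
  · calc ‖(φ g : A) - U g‖ = ‖-(imp φ g - φ g) + (imp φ g - U g)‖ := by congr 1; abel
      _ ≤ ‖-(imp φ g - φ g)‖ + ‖imp φ g - U g‖ := norm_add_le _ _
      _ ≤ δ + 4 * δ ^ 2 := by
        rw [norm_neg]
        exact add_le_add (norm_imp_sub φ δ h g) (hU g)
      _ ≤ _ := by linarith

/-- Almost homomorphisms of a finite group into the unitary group of a C*-algebra are near
homomorphisms, with constants which do not depend on the group or on the algebra. -/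
theorem ulam [Nontrivial A] (φ : F → unitary A) (δ : ℝ) (hδ : δ ≤ 1 / 32) (h : Def φ δ) :
    ∃ ψ : F →* unitary A, ∀ g, ‖(φ g : A) - ψ g‖ ≤ 4 * δ := by
  have h0 : 0 ≤ δ := (norm_nonneg _).trans (h 1 1)
  have key : ∀ (n : ℕ) (χ : F → unitary A), ∃ χ' : F → unitary A, Def χ (δ / 2 ^ n) →
      (Def χ' (δ / 2 ^ (n + 1)) ∧ ∀ g, ‖(χ g : A) - χ' g‖ ≤ 2 * (δ / 2 ^ n)) := by
    intro n χ
    by_cases hχ : Def χ (δ / 2 ^ n)
    · have hle : δ / 2 ^ n ≤ δ := div_le_self h0 (one_le_pow₀ (by norm_num))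
      obtain ⟨χ', h1, h2⟩ := step χ (δ / 2 ^ n) (hle.trans hδ) hχ
      refine ⟨χ', fun _ => ⟨?_, h2⟩⟩
      rw [pow_succ, ← div_div]
      exact h1
    · exact ⟨χ, fun h => absurd h hχ⟩
  choose nxt hn using key
  obtain ⟨S, hS0, hS1⟩ : ∃ S : ℕ → F → unitary A, S 0 = φ ∧ ∀ n, S (n + 1) = nxt n (S n) :=
    ⟨fun n => Nat.rec φ (fun n s => nxt n s) n, rfl, fun _ => rfl⟩
  have hSd : ∀ n, Def (S n) (δ / 2 ^ n) := by
    intro n
    induction n with
    | zero => simpa [hS0] using h
    | succ n ih => rw [hS1]; exact (hn n (S n) ih).1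
  have hSs : ∀ (n : ℕ) (g : F), dist ((S n g : unitary A) : A)
      ((S (n + 1) g : unitary A) : A) ≤ 2 * δ * (1 / 2) ^ n := by
    intro n g
    rw [dist_eq_norm, hS1]
    refine ((hn n (S n) (hSd n)).2 g).trans (le_of_eq ?_)
    rw [one_div, inv_pow]
    ring
  have hC : ∀ g, CauchySeq fun n => ((S n g : unitary A) : A) := fun g =>
    cauchySeq_of_le_geometric (1 / 2) (2 * δ) (by norm_num) (fun n => hSs n g)
  choose L hL using fun g => cauchySeq_tendsto_of_complete (hC g)
  have hLu : ∀ g, L g ∈ unitary A := by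
    intro g
    rw [Unitary.mem_iff]
    constructor
    · refine tendsto_nhds_unique (((hL g).star).mul (hL g)) ?_
      simp only [star_mul_self_eq]
      exact tendsto_const_nhds
    · refine tendsto_nhds_unique ((hL g).mul ((hL g).star)) ?_
      simp only [mul_star_self_eq]
      exact tendsto_const_nhds
  have hLm : ∀ g l, L (g * l) = L g * L l := by
    intro g l
    have h1 : Tendsto (fun n => ((S n (g * l) : unitary A) : A) -
        ((S n g : unitary A) : A) * ((S n l : unitary A) : A)) atTop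
        (𝓝 (L (g * l) - L g * L l)) := (hL (g * l)).sub ((hL g).mul (hL l))
    have h2 : Tendsto (fun n => ((S n (g * l) : unitary A) : A) -
        ((S n g : unitary A) : A) * ((S n l : unitary A) : A)) atTop (𝓝 0) := by
      refine squeeze_zero_norm (a := fun n => δ / 2 ^ n) (fun n => hSd n g l) ?_
      have : Tendsto (fun n : ℕ => δ * (1 / 2 : ℝ) ^ n) atTop (𝓝 (δ * 0)) :=
        (tendsto_pow_atTop_nhds_zero_of_lt_one (by norm_num) (by norm_num)).const_mul δ
      rw [mul_zero] at this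
      refine this.congr fun n => ?_
      rw [one_div, inv_pow]; rfl
    exact sub_eq_zero.1 (tendsto_nhds_unique h1 h2)
  let ψ : F →* unitary A := MonoidHom.mk' (fun g => ⟨L g, hLu g⟩)
    (fun g l => Subtype.ext (hLm g l))
  refine ⟨ψ, fun g => ?_⟩
  have := dist_le_of_le_geometric_of_tendsto₀ (1 / 2) (2 * δ) (by norm_num)
    (fun n => hSs n g) (hL g)
  rw [dist_eq_norm, hS0] at this
  refine this.trans (le_of_eq ?_)
  ring

end step

end Pool.Agent.Q322.OS
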